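import Mathlib

/-!
# Leaf labelled ordered binary trees (definitions and statement of the tree lemma)
-/

set_option autoImplicit false

namespace Pool.Wqo

/-- Leaf labelled ordered binary trees. -/
inductive Tm (α : Type*) : Type _
  | leaf : α → Tm α
  | node : Tm α → Tm α → Tm α

namespace Tm

variable {α β γ : Type*}

/-- The list of the leaf labels, from left to right. -/
def lv : Tm α → List α
  | leaf a => [a]
  | node s t => lv s ++ lv t

/-- Relabel the leaves. -/
def map (f : α → β) : Tm α → Tm β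
  | leaf a => leaf (f a)
  | node s t => node (map f s) (map f t)

/-- Substitute trees for the leaves. -/
def bind (f : α → Tm β) : Tm α → Tm β
  | leaf a => f a
  | node s t => node (bind f s) (bind f t)

/-- `Emb R s t`: the leaves of `s` can be mapped injectively to leaves of `t`, every leaf `a` to a
leaf `b` with `R a b`, such that the tree `s` is the tree induced by `t` on the image. -/
inductive Emb (R : α → β → Prop) : Tm α → Tm β → Prop
  | leaf {a : α} {b : β} : R a b → Emb R (Tm.leaf a) (Tm.leaf b)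
  | left {s : Tm α} {t t' : Tm β} : Emb R s t → Emb R s (Tm.node t t')
  | right {s : Tm α} {t t' : Tm β} : Emb R s t' → Emb R s (Tm.node t t')
  | node {s s' : Tm α} {t t' : Tm β} : Emb R s t → Emb R s' t' → Emb R (Tm.node s s') (Tm.node t t')

end Tm

open Tm

/-- Names of the leaves of `A J`: `inl l` = special leaf number `l`, `inr (j, b)` = leaf `b` of
`t j`. -/
abbrev Nm (β : Type*) := ℕ ⊕ (ℕ × β)

/-- The leaf `b` of `t j` has the name `n` in `A J` (if `j ∈ J`). -/
def NmOf {β : Type*} (q : ℕ) (e : ℕ → β) (j : ℕ) (b : β) (n : Nm β) : Prop :=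
  (∃ l, l < q ∧ n = Sum.inl l ∧ e l = b) ∨ n = Sum.inr (j, b)

/-- The name `n` has the colour of `b`; `c l` is the colour of the special leaf `l`. -/
def NmCol {β Γ : Type*} (π : β → Γ) (c : ℕ → Γ) (n : Nm β) (b : β) : Prop :=
  match n with
  | Sum.inl l => c l = π b
  | Sum.inr (_, a) => π a = π b

/-- **LEMMA TREE** (statement). -/
def TreeLemma.{u, v} : Prop :=
  ∀ (β : Type u) (Γ : Type v) [Finite Γ] (π : β → Γ) (U : Ultrafilter ℕ) (t : ℕ → Tm β),
    ∃ (q : ℕ) (e : ℕ → ℕ → β) (c : ℕ → Γ) (rest : ℕ → List β) (Ω : Set ℕ)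
      (A : List ℕ → Tm (Nm β)), Ω ∈ U ∧
      (∀ j ∈ Ω, (lv (t j)).Perm ((List.range q).map (e j) ++ rest j)) ∧
      (∀ j ∈ Ω, ∀ l < q, π (e j l) = c l) ∧
      (∀ J : List ℕ, J ≠ [] → (∀ j ∈ J, j ∈ Ω) →
        (lv (A J)).Perm ((List.range q).map Sum.inl ++
          J.flatMap (fun j => (rest j).map (fun b => Sum.inr (j, b))))) ∧
      (∀ J : List ℕ, J ≠ [] → (∀ j ∈ J, j ∈ Ω) → ∀ j ∈ J, Emb (NmOf q (e j) j) (t j) (A J)) ∧
      (∀ J : List ℕ, J ≠ [] → (∀ j ∈ J, j ∈ Ω) → ∀ᶠ m in U, Emb (NmCol π c) (A J) (t m))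

end Pool.Wqo
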