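import Pool.Agent.Lib.MP_4fb322_tree.Basic

/-!
# Kruskal's theorem for leaf labelled ordered binary trees (finitely many labels)
-/

set_option autoImplicit false

namespace Pool.Wqo.Tm

variable {α β γ δ : Type*}

/-- Number of nodes. -/
def size : Tm α → ℕ
  | leaf _ => 1
  | node s t => size s + size t + 1

instance embIsPreorder (r : α → α → Prop) [IsPreorder α r] : IsPreorder (Tm α) (Emb r) where
  refl _ := Emb.refl' (fun a _ => refl_of r a)
  trans _ _ _ h h' := (h.trans h').mono' (fun _ _ ⟨_, h1, h2⟩ => trans_of r h1 h2)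

theorem pwo_of_wqo {r : α → α → Prop} (h : WellQuasiOrdered r) (s : Set α) :
    s.PartiallyWellOrderedOn r := by
  rw [Set.PartiallyWellOrderedOn.iff_forall_not_isBadSeq]
  intro f hf
  obtain ⟨m, n, hmn, h'⟩ := h f
  exact hf.2 m n hmn h'

/-- Kruskal's theorem for ordered binary trees with finitely many leaf labels. -/
theorem wqo_finite (Γ : Type*) [Finite Γ] : WellQuasiOrdered (Emb (Eq : Γ → Γ → Prop)) := by
  classical
  by_contra hcon
  have hbad : ∃ f : ℕ → Tm Γ,
      Set.PartiallyWellOrderedOn.IsBadSeq (Emb (Eq : Γ → Γ → Prop)) Set.univ f := by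
    unfold WellQuasiOrdered at hcon
    push Not at hcon
    obtain ⟨f, hf⟩ := hcon
    exact ⟨f, fun _ => trivial, hf⟩
  obtain ⟨f, hf, hmin⟩ :=
    Set.PartiallyWellOrderedOn.exists_min_bad_of_exists_bad _ size Set.univ hbad
  -- only finitely many leaves
  have hfin : {n : ℕ | ∃ a, f n = leaf a}.Finite := by
    by_contra hinf
    have hinf : {n : ℕ | ∃ a, f n = leaf a}.Infinite := hinf
    let lab : ℕ → Γ := fun n => if h : ∃ a, f n = leaf a then h.choose else (f n).lv.head (lv_ne_nil _)
    have hlab : ∀ n, (∃ a, f n = leaf a) → f n = leaf (lab n) := by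
      intro n hn
      simp only [lab, hn, dif_pos]
      exact hn.choose_spec
    obtain ⟨m, hm, n, hn, hne, heq⟩ :=
      hinf.exists_ne_map_eq_of_mapsTo (f := lab) (t := Set.univ) (fun _ _ => trivial) Set.finite_univ
    have key : ∀ m n, (∃ a, f m = leaf a) → (∃ a, f n = leaf a) → lab m = lab n → m < n → False := by
      intro m n hm hn heq hlt
      refine hf.2 m n hlt ?_
      rw [hlab m hm, hlab n hn, heq]
      exact .leaf rfl
    rcases lt_or_gt_of_ne hne with h | h
    · exact key m n hm hn heq h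
    · exact key n m hn hm heq.symm h
  obtain ⟨N, hN⟩ : ∃ N, ∀ n, N ≤ n → ∃ s t, f n = node s t := by
    obtain ⟨N, hN⟩ := hfin.bddAbove
    refine ⟨N + 1, fun n hn => ?_⟩
    cases h : f n with
    | leaf a => exact absurd (hN ⟨a, h⟩) (by omega)
    | node s t => exact ⟨s, t, rfl⟩
  choose A B hAB using fun n : ℕ => hN (N + n) (Nat.le_add_right _ _)
  let S : Set (Tm Γ) := {x | ∃ n, x = A n ∨ x = B n}
  have hchild : ∀ n, ∀ x, (x = A n ∨ x = B n) →
      Emb Eq x (f (N + n)) ∧ size x < size (f (N + n)) := by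
    intro n x hx
    rw [hAB n]
    rcases hx with rfl | rfl
    · exact ⟨.left (Emb.refl' (fun _ _ => rfl)), by simp only [size]; omega⟩
    · exact ⟨.right (Emb.refl' (fun _ _ => rfl)), by simp only [size]; omega⟩
  have hS : S.PartiallyWellOrderedOn (Emb (Eq : Γ → Γ → Prop)) := by
    rw [Set.PartiallyWellOrderedOn.iff_forall_not_isBadSeq]
    intro g hg
    choose idx hidx using hg.1
    -- index with minimal position
    obtain ⟨k0, hk0⟩ : ∃ k0, ∀ k, idx k0 ≤ idx k := by
      have hne : (Set.range idx).Nonempty := ⟨idx 0, 0, rfl⟩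
      obtain ⟨k0, hk0⟩ := Nat.sInf_mem hne
      exact ⟨k0, fun k => hk0 ▸ Nat.sInf_le ⟨k, rfl⟩⟩
    let n0 := N + idx k0
    let h : ℕ → Tm Γ := fun i => if i < n0 then f i else g (k0 + (i - n0))
    refine hmin n0 h (fun m hm => by simp [h, hm]) ?_ ⟨fun _ => trivial, ?_⟩
    · have : h n0 = g k0 := by simp [h]
      rw [this]
      exact (hchild _ _ (hidx k0)).2
    · intro m n hmn hemb
      by_cases hn : n < n0
      · have hm : m < n0 := lt_trans hmn hn
        simp only [h, hm, hn, if_true] at hemb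
        exact hf.2 m n hmn hemb
      · by_cases hm : m < n0
        · simp only [h, hm, hn, if_true, if_false] at hemb
          have h1 := (hchild _ _ (hidx (k0 + (n - n0)))).1
          refine hf.2 m (N + idx (k0 + (n - n0))) (lt_of_lt_of_le hm ?_)
            (trans_of (Emb (Eq : Γ → Γ → Prop)) hemb h1)
          exact Nat.add_le_add_left (hk0 _) _
        · simp only [h, hm, hn, if_false] at hemb
          exact hg.2 _ _ (by omega) hemb
  obtain ⟨g, hg⟩ := hS.exists_monotone_subseq (f := A) (fun n => ⟨n, Or.inl rfl⟩)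
  obtain ⟨m, n, hmn, hB⟩ := hS.exists_lt (f := fun n => B (g n)) (fun n => ⟨g n, Or.inr rfl⟩)
  refine hf.2 (N + g m) (N + g n) (by have := g.strictMono hmn; omega) ?_
  rw [hAB, hAB]
  exact .node (hg m n hmn.le) hB

/-- Trees with coloured leaves (finitely many colours). -/
theorem wqo_col {Γ : Type*} [Finite Γ] (π : β → Γ) :
    WellQuasiOrdered (Emb (fun a b : β => π a = π b)) := by
  intro f
  obtain ⟨m, n, hmn, h⟩ := wqo_finite Γ (fun n => (f n).map π)
  exact ⟨m, n, hmn, by rw [Emb.map_left, Emb.map_right] at h; exact h⟩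

instance colIsPreorder {Γ : Type*} (π : β → Γ) :
    IsPreorder β (fun a b : β => π a = π b) where
  refl _ := rfl
  trans _ _ _ h h' := h.trans h'

/-- The order of the letters of the spine words. -/
def LetR (R : α → β → Prop) (x : Bool × Tm α) (y : Bool × Tm β) : Prop :=
  x.1 = y.1 ∧ Emb R x.2 y.2

instance letIsPreorder (r : α → α → Prop) [IsPreorder α r] :
    IsPreorder (Bool × Tm α) (LetR r) where
  refl x := ⟨rfl, refl_of (Emb r) x.2⟩
  trans _ _ _ h h' := ⟨h.1.trans h'.1, trans_of (Emb r) h.2 h'.2⟩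

theorem wqo_let {Γ : Type*} [Finite Γ] (π : β → Γ) :
    WellQuasiOrdered (LetR (fun a b : β => π a = π b)) := by
  have h1 : WellQuasiOrdered (Eq : Bool → Bool → Prop) := Finite.wellQuasiOrdered _
  exact h1.prod (wqo_col π)

theorem wqo_word {Γ : Type*} [Finite Γ] (π : β → Γ) :
    WellQuasiOrdered (List.SublistForall₂ (LetR (fun a b : β => π a = π b))) := by
  have h := Set.PartiallyWellOrderedOn.partiallyWellOrderedOn_sublistForall₂
    (LetR (fun a b : β => π a = π b)) (pwo_of_wqo (wqo_let π) Set.univ)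
  intro f
  exact h.exists_lt (f := f) (fun n x _ => trivial)

end Pool.Wqo.Tm
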