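import Pool.Agent.Lib.MP_4fb322_tree.Word

/-!
# The tree lemma
-/

set_option autoImplicit false

open Filter

namespace Pool.Wqo

open Tm

variable {β Γ : Type*} {π : β → Γ} {U : Ultrafilter ℕ}

/-- Comparison of colours. -/
abbrev CR (π : β → Γ) : β → β → Prop := fun a b => π a = π b

theorem const_of_finite {Γ : Type*} [Finite Γ] (U : Ultrafilter ℕ) (f : ℕ → Γ) :
    ∃ c, ∀ᶠ m in (U : Filter ℕ), f m = c := by
  obtain ⟨c, hc⟩ := Ultrafilter.eq_pure_of_finite (U.map f)
  refine ⟨c, ?_⟩
  have h : {c} ∈ U.map f := by rw [hc]; exact Filter.mem_pure.2 rfl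
  exact h

/-! ### Words -/

instance ewIsPreorder {α : Type*} (r : α → α → Prop) [IsPreorder α r] :
    IsPreorder (List (Letr α)) (EW r) where
  refl w := ew_refl (fun a => refl_of r a) w
  trans _ _ _ h h' := ew_mono (fun _ _ ⟨_, h1, h2⟩ => trans_of r h1 h2) (ew_trans h h')

theorem ew_nil {α β : Type*} {R : α → β → Prop} (w : List (Letr β)) : EW R [] w := .nil

theorem ew_of_append_left {α β : Type*} {R : α → β → Prop} {w : List (Letr α)}
    {v v' : List (Letr β)} (h : EW R w v) : EW R w (v ++ v') := by
  have := ew_append h (ew_nil (R := R) v')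
  simpa using this

theorem ew_of_append_right {α β : Type*} {R : α → β → Prop} {w : List (Letr α)}
    {v v' : List (Letr β)} (h : EW R w v') : EW R w (v ++ v') := by
  have := ew_append (ew_nil (R := R) v) h
  simpa using this

/-- Names for the leaves of block `j`. -/
def nm (j : ℕ) : β → Nm β := fun b => Sum.inr (j, b)

/-- A rich word: its richness set is closed under concatenation. -/
theorem goodW_rich [Finite Γ] [Nonempty β] (x : ℕ → List (Letr β))
    (hcl : ∀ w ∈ Rich (EW (CR π)) U x, ∀ w' ∈ Rich (EW (CR π)) U x,
      w ++ w' ∈ Rich (EW (CR π)) U x) : GoodW π U x := by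
  have hΩ := rich_self (EW (CR π)) U (wqo_word π) x
  obtain ⟨b0⟩ := ‹Nonempty β›
  refine ⟨0, fun _ _ => b0, fun _ => π b0, fun j => lw (x j), _,
    fun J => J.flatMap (fun j => mw (nm j) (x j)), hΩ, ?_, ?_, ?_, ?_, ?_⟩
  · intro j _; simp
  · intro j _ l hl; omega
  · intro J _ _
    have key : ∀ J : List ℕ, lw (J.flatMap (fun j => mw (nm j) (x j))) =
        J.flatMap (fun j => (lw (x j)).map (fun b => Sum.inr (j, b))) := by
      intro J
      induction J with
      | nil => rfl
      | cons j J ih => rw [List.flatMap_cons, lw_append, ih, List.flatMap_cons, lw_mw]; rfl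
    simp only [key J]; simp
  · intro J _ _ j hj
    have h1 : EW (NmOf 0 (fun _ => b0) j) (x j) (mw (nm j) (x j)) := by
      apply ew_mw_right
      refine ew_mono (R := fun a b => a = b) ?_ (ew_refl (fun _ => rfl) _)
      rintro a b rfl
      exact Or.inr rfl
    have key : ∀ J : List ℕ, j ∈ J → EW (NmOf 0 (fun _ => b0) j) (x j)
        (J.flatMap (fun j => mw (nm j) (x j))) := by
      intro J
      induction J with
      | nil => intro hj; simp at hj
      | cons k J ih =>
        intro hj
        rw [List.flatMap_cons]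
        rcases List.mem_cons.1 hj with rfl | hj
        · exact ew_of_append_left h1
        · exact ew_of_append_right (ih hj)
    exact key J hj
  · intro J _ hJ
    have h1 : ∀ J : List ℕ, (∀ j ∈ J, x j ∈ Rich (EW (CR π)) U x) →
        J.flatMap x ∈ Rich (EW (CR π)) U x := by
      intro J
      induction J with
      | nil => intro _; exact Filter.Eventually.of_forall (fun m => ew_nil _)
      | cons k J ih =>
        intro hJ
        rw [List.flatMap_cons]
        exact hcl _ (hJ k (by simp)) _ (ih (fun j hj => hJ j (by simp [hj])))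
    filter_upwards [h1 J hJ] with m hm
    have h2 : ∀ J : List ℕ, EW (fun (n : Nm β) (b : β) => ∃ j, n = Sum.inr (j, b))
        (J.flatMap (fun j => mw (nm j) (x j))) (J.flatMap x) := by
      intro J
      induction J with
      | nil => exact .nil
      | cons k J ih =>
        rw [List.flatMap_cons, List.flatMap_cons]
        refine ew_append (ew_mw_left ?_) ih
        refine ew_mono (R := fun a b => a = b) ?_ (ew_refl (fun _ => rfl) _)
        rintro a b rfl
        exact ⟨k, rfl⟩
    refine ew_mono ?_ (ew_trans (h2 J) hm)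
    rintro n b ⟨b', ⟨j, rfl⟩, h⟩
    exact h

/-- Cutting a word at the shortest prefix above `w1`. -/
theorem cut_word {r : β → β → Prop} {w1 w2 x : List (Letr β)} (h1 : EW r w1 x) (hne : w1 ≠ [])
    (h12 : ¬ EW r (w1 ++ w2) x) :
    ∃ y p z, x = y ++ p :: z ∧ ¬ EW r w1 y ∧ ¬ EW r w2 z := by
  have key : ∀ x : List (Letr β), EW r w1 x →
      ∃ y p z, x = y ++ p :: z ∧ ¬ EW r w1 y ∧ EW r w1 (y ++ [p]) := by
    intro x
    induction x using List.reverseRecOn with
    | nil =>
      intro h
      exfalso
      unfold EW at h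
      cases h
      exact hne rfl
    | append_singleton x a ih =>
      intro h
      by_cases hx : EW r w1 x
      · obtain ⟨y, p, z, rfl, h3, h4⟩ := ih hx
        exact ⟨y, p, z ++ [a], by simp, h3, h4⟩
      · exact ⟨x, a, [], by simp, hx, h⟩
  obtain ⟨y, p, z, rfl, h3, h4⟩ := key x h1
  refine ⟨y, p, z, rfl, h3, fun h5 => h12 ?_⟩
  have := ew_append h4 h5
  simpa using this

/-- The word lemma: if all sequences of admissible letters are good, all sequences of words of
admissible letters are good. -/
theorem goodW_all [Finite Γ] [Nonempty β] (K : ℕ → Letr β → Prop)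
    (hK : ∀ p : ℕ → Letr β, (∀ᶠ m in (U : Filter ℕ), K m (p m)) → GoodW π U (fun m => [p m])) :
    ∀ x : ℕ → List (Letr β), (∀ᶠ m in (U : Filter ℕ), ∀ a ∈ x m, K m a) → GoodW π U x := by
  intro x
  induction x using (rich_wf (EW (CR π)) U (wqo_word π)).induction with
  | _ x ih =>
    intro hx
    by_cases hcl : ∀ w ∈ Rich (EW (CR π)) U x, ∀ w' ∈ Rich (EW (CR π)) U x,
        w ++ w' ∈ Rich (EW (CR π)) U x
    · exact goodW_rich x hcl
    · push Not at hcl
      obtain ⟨w1, h1, w2, h2, h12⟩ := hcl
      have hne : w1 ≠ [] := by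
        rintro rfl
        exact h12 (by simpa using h2)
      have h12' : ∀ᶠ m in (U : Filter ℕ), ¬ EW (CR π) (w1 ++ w2) (x m) :=
        Ultrafilter.eventually_not.2 h12
      have hcut : ∀ m, ∃ (y : List (Letr β)) (p : Letr β) (z : List (Letr β)),
          (EW (CR π) w1 (x m) → ¬ EW (CR π) (w1 ++ w2) (x m) →
          x m = y ++ p :: z ∧ ¬ EW (CR π) w1 y ∧ ¬ EW (CR π) w2 z) := by
        intro m
        by_cases h : EW (CR π) w1 (x m) ∧ ¬ EW (CR π) (w1 ++ w2) (x m)
        · obtain ⟨y, p, z, h3⟩ := cut_word h.1 hne h.2
          exact ⟨y, p, z, fun _ _ => h3⟩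
        · obtain ⟨b0⟩ := ‹Nonempty β›
          exact ⟨[], (true, Tm.leaf b0), [], fun h3 h4 => (h ⟨h3, h4⟩).elim⟩
      choose y p z hyz using hcut
      have hev : ∀ᶠ m in (U : Filter ℕ),
          x m = y m ++ p m :: z m ∧ ¬ EW (CR π) w1 (y m) ∧ ¬ EW (CR π) w2 (z m) := by
        filter_upwards [h1, h12'] with m hm hm'
        exact hyz m hm hm'
      have hy : GoodW π U y := by
        apply ih
        · refine ⟨?_, ?_⟩
          · intro s hs
            filter_upwards [hs, hev] with m hm hm'
            rw [hm'.1]
            exact ew_of_append_left hm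
          · intro hsub
            have : ∀ᶠ m in (U : Filter ℕ), EW (CR π) w1 (y m) := hsub h1
            obtain ⟨m, hm, hm'⟩ := (this.and hev).exists
            exact hm'.2.1 hm
        · filter_upwards [hx, hev] with m hm hm' a ha
          exact hm a (by rw [hm'.1]; simp [ha])
      have hz : GoodW π U z := by
        apply ih
        · refine ⟨?_, ?_⟩
          · intro s hs
            filter_upwards [hs, hev] with m hm hm'
            rw [hm'.1]
            have : y m ++ p m :: z m = (y m ++ [p m]) ++ z m := by simp
            rw [this]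
            exact ew_of_append_right hm
          · intro hsub
            have : ∀ᶠ m in (U : Filter ℕ), EW (CR π) w2 (z m) := hsub h2
            obtain ⟨m, hm, hm'⟩ := (this.and hev).exists
            exact hm'.2.2 hm
        · filter_upwards [hx, hev] with m hm hm' a ha
          exact hm a (by rw [hm'.1]; simp [ha])
      have hp : GoodW π U (fun m => [p m]) := by
        apply hK
        filter_upwards [hx, hev] with m hm hm'
        exact hm _ (by rw [hm'.1]; simp)
      refine goodW_congr ?_ (goodW_append hy (goodW_append hp hz))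
      filter_upwards [hev] with m hm
      rw [hm.1]; simp

/-! ### Spines -/

/-- The tree with a given spine word and bottom leaf. -/
def asm {β : Type*} : List (Letr β) → β → Tm β
  | [], a => .leaf a
  | (true, τ) :: w, a => .node τ (asm w a)
  | (false, τ) :: w, a => .node (asm w a) τ

theorem asm_emb {α β : Type*} {R : α → β → Prop} {w : List (Letr α)} {v : List (Letr β)}
    {a : α} {b : β} (h : EW R w v) (hab : R a b) : Emb R (asm w a) (asm v b) := by
  unfold EW at h
  induction h with
  | @nil v =>
    induction v with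
    | nil => exact .leaf hab
    | cons x v ih =>
      obtain ⟨s, τ⟩ := x
      cases s
      · exact .left ih
      · exact .right ih
  | @cons x y w v hxy _ ih =>
    obtain ⟨s, τ⟩ := x
    obtain ⟨s', τ'⟩ := y
    obtain ⟨h1, h2⟩ := hxy
    simp only at h1 h2
    subst h1
    cases s
    · exact .node ih h2
    · exact .node h2 ih
  | @cons_right x w v _ ih =>
    obtain ⟨s, τ⟩ := x
    cases s
    · exact .left ih
    · exact .right ih

theorem lv_asm {β : Type*} (w : List (Letr β)) (a : β) :
    (lv (asm w a)).Perm (lw w ++ [a]) := by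
  induction w with
  | nil => simp [asm, lv, lw]
  | cons x w ih =>
    obtain ⟨s, τ⟩ := x
    have e : lw ((s, τ) :: w) = lv τ ++ lw w := by simp [lw]
    rw [e]
    cases s
    · simp only [asm, lv]
      refine (ih.append_right _).trans ?_
      refine List.perm_append_comm.trans ?_
      rw [List.append_assoc]
    · simp only [asm, lv]
      rw [List.append_assoc]
      exact ih.append_left _

/-- Spine decomposition of a tree avoiding `node s1 s2`. -/
theorem exists_spine (s1 s2 t : Tm β) (h : ¬ Emb (CR π) (.node s1 s2) t) :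
    ∃ (x : List (Letr β)) (a : β), t = asm x a ∧
      ∀ y ∈ x, (y.1 = true → ¬ Emb (CR π) s1 y.2) ∧ (y.1 = false → ¬ Emb (CR π) s2 y.2) ∧
        Emb (CR π) y.2 t := by
  induction t with
  | leaf a => exact ⟨[], a, rfl, by simp⟩
  | node l r ihl ihr =>
    have hl : ¬ Emb (CR π) (.node s1 s2) l := fun h' => h (.left h')
    have hr : ¬ Emb (CR π) (.node s1 s2) r := fun h' => h (.right h')
    by_cases h1 : Emb (CR π) s1 l
    · have h2 : ¬ Emb (CR π) s2 r := fun h' => h (.node h1 h')
      obtain ⟨x, a, hx, hx'⟩ := ihl hl
      refine ⟨(false, r) :: x, a, by simp [asm, ← hx], ?_⟩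
      intro y hy
      rcases List.mem_cons.1 hy with rfl | hy
      · exact ⟨by simp, fun _ => h2, .right (Emb.refl' (fun _ _ => rfl))⟩
      · exact ⟨(hx' y hy).1, (hx' y hy).2.1, .left (hx' y hy).2.2⟩
    · obtain ⟨x, a, hx, hx'⟩ := ihr hr
      refine ⟨(true, l) :: x, a, by simp [asm, ← hx], ?_⟩
      intro y hy
      rcases List.mem_cons.1 hy with rfl | hy
      · exact ⟨fun _ => h1, by simp, .left (Emb.refl' (fun _ _ => rfl))⟩
      · exact ⟨(hx' y hy).1, (hx' y hy).2.1, .right (hx' y hy).2.2⟩

/-- From words to trees. -/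
theorem good_asm [Finite Γ] {x : ℕ → List (Letr β)} (a : ℕ → β) (hx : GoodW π U x) :
    Good π U (fun m => asm (x m) (a m)) := by
  obtain ⟨q, e, c, rest, Ω, A, hΩ, h1, h2, h3, h4, h5⟩ := hx
  obtain ⟨c0, hc0⟩ := const_of_finite U (fun m => π (a m))
  refine ⟨q + 1, fun j l => if l < q then e j l else a j, fun l => if l < q then c l else c0,
    rest, Ω ∩ {m | π (a m) = c0}, fun J => asm (A J) (Sum.inl q), inter_mem hΩ hc0,
    ?_, ?_, ?_, ?_, ?_⟩
  · rintro j ⟨hj, _⟩
    have e1 : (List.range (q + 1)).map (fun l => if l < q then e j l else a j) =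
        (List.range q).map (e j) ++ [a j] := by
      rw [List.range_succ, List.map_append]
      congr 1
      · apply List.map_congr_left
        intro l hl
        simp [List.mem_range.1 hl]
      · simp
    rw [e1]
    refine (lv_asm _ _).trans ?_
    refine ((h1 j hj).append_right _).trans ?_
    rw [List.append_assoc, List.append_assoc]
    exact List.Perm.append_left _ List.perm_append_comm
  · rintro j ⟨hj, hj'⟩ l hl
    by_cases hlq : l < q
    · simp only [hlq, if_true]; exact h2 j hj l hlq
    · simp only [hlq, if_false]; exact hj'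
  · intro J hJ hJ'
    have e1 : (List.range (q + 1)).map (Sum.inl : ℕ → Nm β) =
        (List.range q).map Sum.inl ++ [Sum.inl q] := by
      rw [List.range_succ, List.map_append]; rfl
    rw [e1]
    refine (lv_asm _ _).trans ?_
    refine ((h3 J hJ (fun j hj => (hJ' j hj).1)).append_right _).trans ?_
    rw [List.append_assoc, List.append_assoc]
    exact List.Perm.append_left _ List.perm_append_comm
  · intro J hJ hJ' j hj
    refine asm_emb (ew_mono ?_ (h4 J hJ (fun j hj => (hJ' j hj).1) j hj)) ?_
    · rintro b n (⟨l, hl, hn, hla⟩ | hn)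
      · exact Or.inl ⟨l, by omega, hn, by simp [hl, hla]⟩
      · exact Or.inr hn
    · exact Or.inl ⟨q, by omega, rfl, by simp⟩
  · intro J hJ hJ'
    have hA := h3 J hJ (fun j hj => (hJ' j hj).1)
    filter_upwards [h5 J hJ (fun j hj => (hJ' j hj).1), hc0] with m hm hm'
    refine asm_emb (ew_mono_mem ?_ hm) ?_
    · intro n hn b hnb
      cases n with
      | inl l =>
        have hl : l < q := by
          have := hA.subset hn
          simp only [List.mem_append, List.mem_map, List.mem_range, Sum.inl.injEq,
            List.mem_flatMap] at this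
          rcases this with ⟨l', hl', rfl⟩ | ⟨j, _, b, _, hb⟩
          · exact hl'
          · exact absurd hb (by simp)
        simpa [NmCol, hl] using hnb
      | inr x => exact hnb
    · simp [NmCol, hm']

/-! ### Combs -/

/-- The comb of a nonempty list of trees. -/
def comb {β : Type*} (t : Tm β) : List (Tm β) → Tm β
  | [] => t
  | s :: l => .node t (comb s l)

theorem good_rich [Finite Γ] (t : ℕ → Tm β)
    (hcl : ∀ w ∈ Rich (Emb (CR π)) U t, ∀ w' ∈ Rich (Emb (CR π)) U t,
      Tm.node w w' ∈ Rich (Emb (CR π)) U t) : Good π U t := by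
  have hΩ := rich_self (Emb (CR π)) U (wqo_col π) t
  have b0 : β := (lv (t 0)).head (lv_ne_nil _)
  let T : ℕ → Tm (Nm β) := fun j => (t j).map (nm j)
  refine ⟨0, fun _ _ => b0, fun _ => π b0, fun j => lv (t j), _,
    fun J => match J with
      | [] => T 0
      | j :: J => comb (T j) (J.map T), hΩ, ?_, ?_, ?_, ?_, ?_⟩
  · intro j _; simp
  · intro j _ l hl; omega
  · intro J hJ _
    obtain ⟨j, J, rfl⟩ := List.exists_cons_of_ne_nil hJ
    simp only [List.range_zero, List.map_nil, List.nil_append]
    have key : ∀ (J : List ℕ) (j : ℕ), lv (comb (T j) (J.map T)) =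
        (j :: J).flatMap (fun j => (lv (t j)).map (fun b => Sum.inr (j, b))) := by
      intro J
      induction J with
      | nil => intro j; simp [comb, T, lv_map, nm]
      | cons k J ih =>
        intro j
        rw [List.map_cons, comb, lv, ih k, List.flatMap_cons]
        congr 1
        simp only [T, lv_map]; rfl
    rw [key J j]
  · intro J hJ _ j hj
    obtain ⟨k, J, rfl⟩ := List.exists_cons_of_ne_nil hJ
    simp only
    have h1 : Emb (NmOf 0 (fun _ => b0) j) (t j) (T j) := by
      simp only [T]
      rw [Emb.map_right]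
      refine Emb.refl' (fun b _ => Or.inr rfl)
    have key : ∀ (J : List ℕ) (k : ℕ), j ∈ k :: J →
        Emb (NmOf 0 (fun _ => b0) j) (t j) (comb (T k) (J.map T)) := by
      intro J
      induction J with
      | nil =>
        intro k hj
        rcases List.mem_cons.1 hj with rfl | hj
        · exact h1
        · simp at hj
      | cons k' J ih =>
        intro k hj
        rw [List.map_cons, comb]
        rcases List.mem_cons.1 hj with rfl | hj
        · exact .left h1
        · exact .right (ih k' hj)
    exact key J k hj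
  · intro J hJ hJ'
    obtain ⟨k, J, rfl⟩ := List.exists_cons_of_ne_nil hJ
    simp only
    have h1 : ∀ (J : List ℕ) (k : ℕ), (∀ j ∈ k :: J, t j ∈ Rich (Emb (CR π)) U t) →
        comb (t k) (J.map t) ∈ Rich (Emb (CR π)) U t := by
      intro J
      induction J with
      | nil => intro k hk; exact hk k (by simp)
      | cons k' J ih =>
        intro k hk
        rw [List.map_cons, comb]
        exact hcl _ (hk k (by simp)) _ (ih k' (fun j hj => hk j (by simp at hj ⊢; tauto)))
    filter_upwards [h1 J k hJ'] with m hm
    have h2 : ∀ (J : List ℕ) (k : ℕ), Emb (fun (n : Nm β) (b : β) => ∃ j, n = Sum.inr (j, b))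
        (comb (T k) (J.map T)) (comb (t k) (J.map t)) := by
      have h0 : ∀ k, Emb (fun (n : Nm β) (b : β) => ∃ j, n = Sum.inr (j, b)) (T k) (t k) := by
        intro k
        simp only [T]
        rw [Emb.map_left]
        exact Emb.refl' (fun b _ => ⟨k, rfl⟩)
      intro J
      induction J with
      | nil => intro k; exact h0 k
      | cons k' J ih => intro k; rw [List.map_cons, List.map_cons, comb, comb]; exact .node (h0 k) (ih k')
    refine ((h2 J k).trans hm).mono' ?_
    rintro n b ⟨b', ⟨j, rfl⟩, h⟩
    exact h

/-- **LEMMA TREE.** -/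
theorem good_all [Finite Γ] (π : β → Γ) (U : Ultrafilter ℕ) : ∀ t : ℕ → Tm β, Good π U t := by
  intro t
  induction t using (rich_wf (Emb (CR π)) U (wqo_col π)).induction with
  | _ t ih =>
    by_cases hcl : ∀ w ∈ Rich (Emb (CR π)) U t, ∀ w' ∈ Rich (Emb (CR π)) U t,
      Tm.node w w' ∈ Rich (Emb (CR π)) U t
    · exact good_rich t hcl
    · push Not at hcl
      obtain ⟨s1, h1, s2, h2, h12⟩ := hcl
      have h12' : ∀ᶠ m in (U : Filter ℕ), ¬ Emb (CR π) (.node s1 s2) (t m) :=
        Ultrafilter.eventually_not.2 h12
      have hβ : Nonempty β := ⟨(lv (t 0)).head (lv_ne_nil _)⟩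
      have hsp : ∀ m, ∃ (x : List (Letr β)) (a : β), ¬ Emb (CR π) (.node s1 s2) (t m) →
          t m = asm x a ∧
          ∀ y ∈ x, (y.1 = true → ¬ Emb (CR π) s1 y.2) ∧ (y.1 = false → ¬ Emb (CR π) s2 y.2) ∧
            Emb (CR π) y.2 (t m) := by
        intro m
        by_cases h : Emb (CR π) (.node s1 s2) (t m)
        · exact ⟨[], hβ.some, fun h' => (h' h).elim⟩
        · obtain ⟨x, a, hx⟩ := exists_spine s1 s2 (t m) h
          exact ⟨x, a, fun _ => hx⟩
      choose x a hxa using hsp
      have hx : GoodW π U x := by
        refine goodW_all (fun m y => (y.1 = true → ¬ Emb (CR π) s1 y.2) ∧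
          (y.1 = false → ¬ Emb (CR π) s2 y.2) ∧ Emb (CR π) y.2 (t m)) ?_ x ?_
        · intro p hp
          obtain ⟨b, hb⟩ := const_of_finite U (fun m => (p m).1)
          have hτ : Good π U (fun m => (p m).2) := by
            apply ih
            refine ⟨?_, ?_⟩
            · intro s hs
              filter_upwards [hs, hp] with m hm hm'
              exact trans_of (Emb (CR π)) hm hm'.2.2
            · intro hsub
              cases b with
              | true =>
                have : ∀ᶠ m in (U : Filter ℕ), Emb (CR π) s1 (p m).2 := hsub h1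
                obtain ⟨m, ⟨hm, hm'⟩, hm''⟩ := ((this.and hp).and hb).exists
                exact hm'.1 hm'' hm
              | false =>
                have : ∀ᶠ m in (U : Filter ℕ), Emb (CR π) s2 (p m).2 := hsub h2
                obtain ⟨m, ⟨hm, hm'⟩, hm''⟩ := ((this.and hp).and hb).exists
                exact hm'.2.1 hm'' hm
          refine goodW_congr ?_ (goodW_letter b hτ)
          filter_upwards [hb] with m hm
          rw [← hm]
        · filter_upwards [h12'] with m hm
          exact (hxa m hm).2
      refine good_congr ?_ (good_asm a hx)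
      filter_upwards [h12'] with m hm
      exact (hxa m hm).1.symm

theorem treeLemma.{u, v} : TreeLemma.{u, v} := by
  intro β Γ _ π U t
  exact good_all π U t

end Pool.Wqo
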