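import Pool.Agent.Lib.MP_4fb322_tree.Kruskal

/-!
# Richness sets, gluing of words of letters
-/

set_option autoImplicit false

open Filter

namespace Pool.Wqo

open Tm

section rich

variable {X : Type*} (r : X → X → Prop) (U : Ultrafilter ℕ)

/-- The elements which are `r`-below `x m` for `U`-most `m`. -/
def Rich (x : ℕ → X) : Set X := {s | ∀ᶠ m in (U : Filter ℕ), r s (x m)}

theorem rich_self (h : WellQuasiOrdered r) (x : ℕ → X) :
    ∀ᶠ m in (U : Filter ℕ), x m ∈ Rich r U x := by
  by_contra hcon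
  rw [← Ultrafilter.eventually_not] at hcon
  -- a bad sequence
  have step : ∀ F : Finset ℕ, (∀ i ∈ F, x i ∉ Rich r U x) →
      ∃ m, x m ∉ Rich r U x ∧ ∀ i ∈ F, ¬ r (x i) (x m) := by
    intro F hF
    have h1 : ∀ᶠ m in (U : Filter ℕ), ∀ i ∈ F, ¬ r (x i) (x m) := by
      rw [Filter.eventually_all_finset]
      intro i hi
      exact Ultrafilter.eventually_not.2 (hF i hi)
    obtain ⟨m, hm, hm'⟩ := (hcon.and h1).exists
    exact ⟨m, hm, hm'⟩
  classical
  choose! g hg using step
  -- iterate
  let G : ℕ → Finset ℕ := fun n => Nat.rec ∅ (fun _ F => insert (g F) F) n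
  have hG0 : G 0 = ∅ := rfl
  have hGs : ∀ n, G (n + 1) = insert (g (G n)) (G n) := fun n => rfl
  have hG : ∀ n, ∀ i ∈ G n, x i ∉ Rich r U x := by
    intro n
    induction n with
    | zero => intro i hi; simp [hG0] at hi
    | succ n ih =>
      intro i hi
      rw [hGs, Finset.mem_insert] at hi
      rcases hi with rfl | hi
      · exact (hg (G n) ih).1
      · exact ih i hi
  have hmono : ∀ m n, m ≤ n → G m ⊆ G n := by
    intro m n hmn
    induction n, hmn using Nat.le_induction with
    | base => exact Finset.Subset.refl _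
    | succ n _ ih => exact ih.trans (by rw [hGs]; exact Finset.subset_insert _ _)
  obtain ⟨m, n, hmn, hr⟩ := h (fun n => x (g (G n)))
  refine (hg (G n) (hG n)).2 (g (G m)) ?_ hr
  exact hmono (m + 1) n hmn (by rw [hGs]; exact Finset.mem_insert_self _ _)

theorem rich_wf [IsPreorder X r] (h : WellQuasiOrdered r) :
    WellFounded (fun y x : ℕ → X => Rich r U y ⊂ Rich r U x) := by
  rw [wellFounded_iff_isEmpty_descending_chain]
  refine ⟨fun ⟨f, hf⟩ => ?_⟩
  have hmono : ∀ m n, m ≤ n → Rich r U (f n) ⊆ Rich r U (f m) := by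
    intro m n hmn
    induction n, hmn using Nat.le_induction with
    | base => exact subset_rfl
    | succ n _ ih => exact (hf n).subset.trans ih
  have hex : ∀ n, ∃ s, s ∈ Rich r U (f n) ∧ s ∉ Rich r U (f (n + 1)) := fun n =>
    Set.exists_of_ssubset (hf n)
  choose s hs using hex
  obtain ⟨m, n, hmn, hr⟩ := h s
  apply (hs m).2
  have h1 : s n ∈ Rich r U (f (m + 1)) := hmono (m + 1) n hmn (hs n).1
  exact h1.mono (fun k hk => trans_of r hr hk)

end rich

section words

variable {β Γ : Type*} (π : β → Γ) (U : Ultrafilter ℕ)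

/-- Letters of a word of side trees. -/
abbrev Letr (β : Type*) := Bool × Tm β

/-- Leaves of a word. -/
def lw (w : List (Letr β)) : List β := w.flatMap (fun x => lv x.2)

theorem lw_append (w w' : List (Letr β)) : lw (w ++ w') = lw w ++ lw w' := by
  simp [lw]

/-- Embedding of words of letters. -/
def EW {α β : Type*} (R : α → β → Prop) : List (Letr α) → List (Letr β) → Prop :=
  List.SublistForall₂ (LetR R)

theorem ew_append {α β : Type*} {R : α → β → Prop} {w1 w2 : List (Letr α)} {v1 v2 : List (Letr β)}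
    (h1 : EW R w1 v1) (h2 : EW R w2 v2) : EW R (w1 ++ w2) (v1 ++ v2) := by
  unfold EW at *
  rw [List.sublistForall₂_iff] at *
  obtain ⟨l1, hl1, hs1⟩ := h1
  obtain ⟨l2, hl2, hs2⟩ := h2
  exact ⟨l1 ++ l2, List.rel_append hl1 hl2, hs1.append hs2⟩

theorem ew_refl {α : Type*} {R : α → α → Prop} (h : ∀ a, R a a) (w : List (Letr α)) :
    EW R w w := by
  induction w with
  | nil => exact .nil
  | cons a w ih => exact .cons ⟨rfl, Emb.refl' (fun b _ => h b)⟩ ih

theorem ew_trans {α β γ : Type*} {R : α → β → Prop} {S : β → γ → Prop}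
    {w1 : List (Letr α)} {w2 : List (Letr β)} {w3 : List (Letr γ)}
    (h1 : EW R w1 w2) (h2 : EW S w2 w3) : EW (fun a c => ∃ b, R a b ∧ S b c) w1 w3 := by
  unfold EW at *
  induction h2 generalizing w1 with
  | nil => cases h1; exact .nil
  | cons h _ ih =>
    cases h1 with
    | nil => exact .nil
    | cons h' h'' => exact .cons ⟨h'.1.trans h.1, h'.2.trans h.2⟩ (ih h'')
    | cons_right h'' => exact .cons_right (ih h'')
  | cons_right _ ih => exact .cons_right (ih h1)

theorem ew_mono {α β : Type*} {R R' : α → β → Prop} (h : ∀ a b, R a b → R' a b)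
    {w1 : List (Letr α)} {w2 : List (Letr β)} (h1 : EW R w1 w2) : EW R' w1 w2 := by
  unfold EW at *
  induction h1 with
  | nil => exact .nil
  | cons h' _ ih => exact .cons ⟨h'.1, h'.2.mono' h⟩ ih
  | cons_right _ ih => exact .cons_right ih

theorem ew_mono_mem {α β : Type*} {R R' : α → β → Prop}
    {w1 : List (Letr α)} {w2 : List (Letr β)} (h : ∀ a ∈ lw w1, ∀ b, R a b → R' a b)
    (h1 : EW R w1 w2) : EW R' w1 w2 := by
  unfold EW at *
  induction h1 with
  | nil => exact .nil
  | @cons a1 a2 l1 l2 h' _ ih =>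
    refine .cons ⟨h'.1, h'.2.mono (fun a ha b _ => h a ?_ b)⟩ (ih (fun a ha => h a ?_))
    · simp only [lw, List.flatMap_cons, List.mem_append]; exact Or.inl ha
    · simp only [lw, List.flatMap_cons, List.mem_append]; exact Or.inr ha
  | cons_right _ ih => exact .cons_right (ih h)

/-- The conclusion of the tree lemma for one sequence of trees. -/
def Good (t : ℕ → Tm β) : Prop :=
  ∃ (q : ℕ) (e : ℕ → ℕ → β) (c : ℕ → Γ) (rest : ℕ → List β) (Ω : Set ℕ)
      (A : List ℕ → Tm (Nm β)), Ω ∈ U ∧
      (∀ j ∈ Ω, (lv (t j)).Perm ((List.range q).map (e j) ++ rest j)) ∧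
      (∀ j ∈ Ω, ∀ l < q, π (e j l) = c l) ∧
      (∀ J : List ℕ, J ≠ [] → (∀ j ∈ J, j ∈ Ω) →
        (lv (A J)).Perm ((List.range q).map Sum.inl ++
          J.flatMap (fun j => (rest j).map (fun b => Sum.inr (j, b))))) ∧
      (∀ J : List ℕ, J ≠ [] → (∀ j ∈ J, j ∈ Ω) → ∀ j ∈ J, Emb (NmOf q (e j) j) (t j) (A J)) ∧
      (∀ J : List ℕ, J ≠ [] → (∀ j ∈ J, j ∈ Ω) → ∀ᶠ m in U, Emb (NmCol π c) (A J) (t m))

/-- The same for words of letters. -/
def GoodW (x : ℕ → List (Letr β)) : Prop :=
  ∃ (q : ℕ) (e : ℕ → ℕ → β) (c : ℕ → Γ) (rest : ℕ → List β) (Ω : Set ℕ)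
      (A : List ℕ → List (Letr (Nm β))), Ω ∈ U ∧
      (∀ j ∈ Ω, (lw (x j)).Perm ((List.range q).map (e j) ++ rest j)) ∧
      (∀ j ∈ Ω, ∀ l < q, π (e j l) = c l) ∧
      (∀ J : List ℕ, J ≠ [] → (∀ j ∈ J, j ∈ Ω) →
        (lw (A J)).Perm ((List.range q).map Sum.inl ++
          J.flatMap (fun j => (rest j).map (fun b => Sum.inr (j, b))))) ∧
      (∀ J : List ℕ, J ≠ [] → (∀ j ∈ J, j ∈ Ω) → ∀ j ∈ J, EW (NmOf q (e j) j) (x j) (A J)) ∧
      (∀ J : List ℕ, J ≠ [] → (∀ j ∈ J, j ∈ Ω) → ∀ᶠ m in U, EW (NmCol π c) (A J) (x m))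

variable {π U}

theorem good_congr {t t' : ℕ → Tm β} (h : ∀ᶠ m in (U : Filter ℕ), t m = t' m)
    (ht : Good π U t) : Good π U t' := by
  obtain ⟨q, e, c, rest, Ω, A, hΩ, h1, h2, h3, h4, h5⟩ := ht
  refine ⟨q, e, c, rest, Ω ∩ {m | t m = t' m}, A, inter_mem hΩ h, ?_, ?_, ?_, ?_, ?_⟩
  · rintro j ⟨hj, hj'⟩
    have : t j = t' j := hj'
    rw [← this]; exact h1 j hj
  · rintro j ⟨hj, _⟩; exact h2 j hj
  · exact fun J hJ hJ' => h3 J hJ (fun j hj => (hJ' j hj).1)
  · intro J hJ hJ' j hj
    have : t j = t' j := (hJ' j hj).2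
    rw [← this]; exact h4 J hJ (fun j hj => (hJ' j hj).1) j hj
  · intro J hJ hJ'
    filter_upwards [h5 J hJ (fun j hj => (hJ' j hj).1), h] with m hm hm'
    rw [← hm']; exact hm

theorem goodW_congr {t t' : ℕ → List (Letr β)} (h : ∀ᶠ m in (U : Filter ℕ), t m = t' m)
    (ht : GoodW π U t) : GoodW π U t' := by
  obtain ⟨q, e, c, rest, Ω, A, hΩ, h1, h2, h3, h4, h5⟩ := ht
  refine ⟨q, e, c, rest, Ω ∩ {m | t m = t' m}, A, inter_mem hΩ h, ?_, ?_, ?_, ?_, ?_⟩
  · rintro j ⟨hj, hj'⟩
    have : t j = t' j := hj'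
    rw [← this]; exact h1 j hj
  · rintro j ⟨hj, _⟩; exact h2 j hj
  · exact fun J hJ hJ' => h3 J hJ (fun j hj => (hJ' j hj).1)
  · intro J hJ hJ' j hj
    have : t j = t' j := (hJ' j hj).2
    rw [← this]; exact h4 J hJ (fun j hj => (hJ' j hj).1) j hj
  · intro J hJ hJ'
    filter_upwards [h5 J hJ (fun j hj => (hJ' j hj).1), h] with m hm hm'
    rw [← hm']; exact hm

/-- One letter with a constant side. -/
theorem goodW_letter {t : ℕ → Tm β} (b : Bool) (ht : Good π U t) :
    GoodW π U (fun m => [(b, t m)]) := by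
  obtain ⟨q, e, c, rest, Ω, A, hΩ, h1, h2, h3, h4, h5⟩ := ht
  refine ⟨q, e, c, rest, Ω, fun J => [(b, A J)], hΩ, ?_, h2, ?_, ?_, ?_⟩
  · intro j hj; simpa [lw] using h1 j hj
  · intro J hJ hJ'; simpa [lw] using h3 J hJ hJ'
  · intro J hJ hJ' j hj
    exact .cons ⟨rfl, h4 J hJ hJ' j hj⟩ .nil
  · intro J hJ hJ'
    filter_upwards [h5 J hJ hJ'] with m hm
    exact .cons ⟨rfl, hm⟩ .nil

/-- Shift of the special names. -/
def sh (k : ℕ) : Nm β → Nm β
  | Sum.inl l => Sum.inl (k + l)
  | Sum.inr x => Sum.inr x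

/-- Map on words. -/
def mw {α β : Type*} (f : α → β) (w : List (Letr α)) : List (Letr β) :=
  w.map (fun x => (x.1, Tm.map f x.2))

theorem lw_mw {α β : Type*} (f : α → β) (w : List (Letr α)) : lw (mw f w) = (lw w).map f := by
  induction w with
  | nil => rfl
  | cons x w ih =>
    have e1 : lw (mw f (x :: w)) = lv (Tm.map f x.2) ++ lw (mw f w) := by simp [lw, mw]
    have e2 : lw (x :: w) = lv x.2 ++ lw w := by simp [lw]
    rw [e1, e2, ih, lv_map, List.map_append]

theorem ew_mw_left {α β δ : Type*} {R : α → β → Prop} {f : δ → α} {w : List (Letr δ)}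
    {v : List (Letr β)} (h : EW (fun a b => R (f a) b) w v) : EW R (mw f w) v := by
  unfold EW at *
  induction h with
  | nil => exact .nil
  | cons h _ ih => exact .cons ⟨h.1, Emb.map_left.2 h.2⟩ ih
  | cons_right _ ih => exact .cons_right ih

theorem ew_mw_right {α β δ : Type*} {R : α → β → Prop} {f : δ → β} {w : List (Letr α)}
    {v : List (Letr δ)} (h : EW (fun a b => R a (f b)) w v) : EW R w (mw f v) := by
  unfold EW at *
  induction h with
  | nil => exact .nil
  | cons h _ ih => exact .cons ⟨h.1, Emb.map_right.2 h.2⟩ ih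
  | cons_right _ ih => exact .cons_right ih

theorem flatMap_append_perm {α β : Type*} (J : List α) (f g : α → List β) :
    (J.flatMap (fun j => f j ++ g j)).Perm (J.flatMap f ++ J.flatMap g) := by
  induction J with
  | nil => simp
  | cons j J ih =>
    simp only [List.flatMap_cons]
    have h1 : (f j ++ g j ++ J.flatMap (fun j => f j ++ g j)).Perm
        (f j ++ g j ++ (J.flatMap f ++ J.flatMap g)) := ih.append_left _
    refine h1.trans ?_
    rw [List.append_assoc, List.append_assoc]
    refine List.Perm.append_left _ ?_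
    rw [← List.append_assoc, ← List.append_assoc]
    exact List.Perm.append_right _ List.perm_append_comm

/-- Perm bookkeeping for the concatenation. -/
theorem perm_four {α : Type*} {a b c d x y : List α} (h1 : x.Perm (a ++ b)) (h2 : y.Perm (c ++ d)) :
    (x ++ y).Perm (a ++ c ++ (b ++ d)) := by
  refine (h1.append h2).trans ?_
  rw [List.append_assoc, List.append_assoc]
  refine List.Perm.append_left _ ?_
  rw [← List.append_assoc, ← List.append_assoc]
  exact List.Perm.append_right _ List.perm_append_comm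

theorem goodW_append {x y : ℕ → List (Letr β)} (hx : GoodW π U x) (hy : GoodW π U y) :
    GoodW π U (fun m => x m ++ y m) := by
  obtain ⟨q, e, c, rest, Ω, A, hΩ, h1, h2, h3, h4, h5⟩ := hx
  obtain ⟨q', e', c', rest', Ω', A', hΩ', h1', h2', h3', h4', h5'⟩ := hy
  refine ⟨q + q', fun j l => if l < q then e j l else e' j (l - q),
    fun l => if l < q then c l else c' (l - q), fun j => rest j ++ rest' j, Ω ∩ Ω',
    fun J => A J ++ mw (sh q) (A' J), inter_mem hΩ hΩ', ?_, ?_, ?_, ?_, ?_⟩
  · rintro j ⟨hj, hj'⟩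
    rw [lw_append]
    have key : (List.range (q + q')).map (fun l => if l < q then e j l else e' j (l - q)) =
        (List.range q).map (e j) ++ (List.range q').map (e' j) := by
      rw [List.range_add, List.map_append, List.map_map]
      congr 1
      · apply List.map_congr_left
        intro l hl
        simp [List.mem_range.1 hl]
      · apply List.map_congr_left
        intro l hl
        simp
    rw [key]
    exact perm_four (h1 j hj) (h1' j hj')
  · rintro j ⟨hj, hj'⟩ l hl
    by_cases hlq : l < q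
    · simp only [hlq, if_true]; exact h2 j hj l hlq
    · simp only [hlq, if_false]; exact h2' j hj' (l - q) (by omega)
  · intro J hJ hJ'
    rw [lw_append, lw_mw]
    have e1 : (List.range (q + q')).map (Sum.inl : ℕ → Nm β) =
        (List.range q).map Sum.inl ++ ((List.range q').map (Sum.inl : ℕ → Nm β)).map (sh q) := by
      rw [List.range_add, List.map_append, List.map_map, List.map_map]
      congr 1
    rw [e1]
    have e2 : (J.flatMap (fun j => (rest j ++ rest' j).map
        (fun b => (Sum.inr (j, b) : Nm β)))).Perm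
        (J.flatMap (fun j => (rest j).map (fun b => (Sum.inr (j, b) : Nm β))) ++
         (J.flatMap (fun j => (rest' j).map (fun b => (Sum.inr (j, b) : Nm β)))).map (sh q)) := by
      have e3 : (J.flatMap (fun j => (rest' j).map (fun b => (Sum.inr (j, b) : Nm β)))).map (sh q)
          = J.flatMap (fun j => (rest' j).map (fun b => (Sum.inr (j, b) : Nm β))) := by
        rw [List.map_flatMap]
        congr 1
        funext j
        rw [List.map_map]
        apply List.map_congr_left
        intro b _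
        rfl
      rw [e3]
      simp only [List.map_append]
      exact flatMap_append_perm J _ _
    refine List.Perm.trans ?_ (List.Perm.append_left _ e2.symm)
    have g1 := h3 J hJ (fun j hj => (hJ' j hj).1)
    have g2 := (h3' J hJ (fun j hj => (hJ' j hj).2)).map (sh q)
    rw [List.map_append] at g2
    exact perm_four g1 g2
  · intro J hJ hJ' j hj
    refine ew_append ?_ (ew_mw_right ?_)
    · refine ew_mono ?_ (h4 J hJ (fun j hj => (hJ' j hj).1) j hj)
      rintro a n (⟨l, hl, hn, hla⟩ | hn)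
      · exact Or.inl ⟨l, by omega, hn, by simp [hl, hla]⟩
      · exact Or.inr hn
    · refine ew_mono ?_ (h4' J hJ (fun j hj => (hJ' j hj).2) j hj)
      rintro a n (⟨l, hl, hn, hla⟩ | hn)
      · exact Or.inl ⟨q + l, by omega, by rw [hn]; rfl, by simp [hla]⟩
      · exact Or.inr (by rw [hn]; rfl)
  · intro J hJ hJ'
    have hA := h3 J hJ (fun j hj => (hJ' j hj).1)
    have hA' := h3' J hJ (fun j hj => (hJ' j hj).2)
    filter_upwards [h5 J hJ (fun j hj => (hJ' j hj).1), h5' J hJ (fun j hj => (hJ' j hj).2)]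
      with m hm hm'
    refine ew_append ?_ (ew_mw_left ?_)
    · -- names `inl l` in `A J` have `l < q`
      have hmem : ∀ n ∈ lw (A J), ∀ l, n = Sum.inl l → l < q := by
        intro n hn l hl
        have := hA.subset hn
        subst hl
        simp only [List.mem_append, List.mem_map, List.mem_range, Sum.inl.injEq,
          List.mem_flatMap] at this
        rcases this with ⟨l', hl', rfl⟩ | ⟨j, _, b, _, hb⟩
        · exact hl'
        · exact absurd hb (by simp)
      refine ew_mono_mem ?_ hm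
      intro n hn b hnb
      cases n with
      | inl l =>
        have : l < q := hmem (Sum.inl l) hn l rfl
        simpa [NmCol, this] using hnb
      | inr x => exact hnb
    · refine ew_mono ?_ hm'
      intro n b hnb
      cases n with
      | inl l => simpa [NmCol, sh] using hnb
      | inr x => exact hnb

end words

end Pool.Wqo
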